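import Pool.Agent.P8H59.An.Stm2

/-!
# Package FIN (written by helper43)
-/

set_option autoImplicit false

open Polynomial Matrix

namespace Pool.Agent.P8H43.An

/-- a monic product of linear factors with integral roots has integral coefficients -/
lemma coeff_int {ι : Type*} [Fintype ι] (u : ι → ℝ) (hu : ∀ i, IsIntegral ℤ (u i)) (k : ℕ) :
    IsIntegral ℤ ((∏ i, (X - C (u i))).coeff k) := by
  have h1 : (∏ i, (X - C (u i)) : ℝ[X]) =
      (∏ i, (X - C (⟨u i, hu i⟩ : integralClosure ℤ ℝ))).map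
        (algebraMap (integralClosure ℤ ℝ) ℝ) := by
    rw [Polynomial.map_prod]
    refine Finset.prod_congr rfl fun i _ => ?_
    rw [Polynomial.map_sub, Polynomial.map_X, Polynomial.map_C]
    rfl
  rw [h1, coeff_map]
  exact ((∏ i, (X - C (⟨u i, hu i⟩ : integralClosure ℤ ℝ))).coeff k).2

lemma lift_int {ι : Type*} [Fintype ι] {p : ℚ[X]} {u : ι → ℝ} (hu : ∀ i, IsIntegral ℤ (u i))
    (hp : p.map (algebraMap ℚ ℝ) = ∏ i, (X - C (u i))) :
    ∃ q : ℤ[X], q.map (Int.castRingHom ℚ) = p := by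
  have h1 : p ∈ lifts (Int.castRingHom ℚ) := by
    rw [lifts_iff_coeff_lifts]
    intro k
    have h2 := coeff_int u hu k
    rw [← hp, coeff_map] at h2
    have h3 : IsIntegral ℤ (p.coeff k) :=
      (isIntegral_algebraMap_iff (algebraMap ℚ ℝ).injective).1 h2
    obtain ⟨m, hm⟩ := (IsIntegrallyClosed.isIntegral_iff (R := ℤ) (K := ℚ)).1 h3
    exact ⟨m, hm⟩
  exact (mem_lifts p).1 h1

lemma unit_const {ι : Type*} [Fintype ι] {q : ℤ[X]} {u : ι → ℝ}
    (hu : ∀ i, IsIntegral ℤ (u i)⁻¹) (hu0 : ∀ i, u i ≠ 0)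
    (hq : (q.map (Int.castRingHom ℚ)).map (algebraMap ℚ ℝ) = ∏ i, (X - C (u i))) :
    q.coeff 0 = 1 ∨ q.coeff 0 = -1 := by
  have h1 : ((q.coeff 0 : ℤ) : ℝ) = ∏ i, (-u i) := by
    have h2 : ((q.map (Int.castRingHom ℚ)).map (algebraMap ℚ ℝ)).coeff 0 =
        (∏ i, (X - C (u i))).coeff 0 := by rw [hq]
    rw [coeff_map, coeff_map, coeff_zero_eq_eval_zero (∏ i, (X - C (u i))), eval_prod] at h2
    simpa using h2
  have h2 : IsIntegral ℤ (((q.coeff 0 : ℤ) : ℝ)⁻¹) := by
    rw [h1, ← Finset.prod_inv_distrib]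
    refine IsIntegral.prod _ fun i _ => ?_
    rw [inv_neg]
    exact (hu i).neg
  have h3 : q.coeff 0 ≠ 0 := by
    intro h0
    rw [h0, Int.cast_zero] at h1
    have := Finset.prod_ne_zero_iff.2 (fun i (_ : i ∈ (Finset.univ : Finset ι)) =>
      neg_ne_zero.2 (hu0 i))
    exact this h1.symm
  have h4 : IsIntegral ℤ (((q.coeff 0 : ℤ) : ℚ)⁻¹) := by
    have h5 : algebraMap ℚ ℝ (((q.coeff 0 : ℤ) : ℚ)⁻¹) = ((q.coeff 0 : ℤ) : ℝ)⁻¹ := by
      simp
    rw [← h5] at h2
    exact (isIntegral_algebraMap_iff (algebraMap ℚ ℝ).injective).1 h2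
  obtain ⟨m, hm⟩ := (IsIntegrallyClosed.isIntegral_iff (R := ℤ) (K := ℚ)).1 h4
  have h6 : (q.coeff 0) * m = 1 := by
    have h7 : ((q.coeff 0 : ℤ) : ℚ) ≠ 0 := by exact_mod_cast h3
    have h8 : ((m : ℤ) : ℚ) = ((q.coeff 0 : ℤ) : ℚ)⁻¹ := hm
    have h9 : ((q.coeff 0 : ℤ) : ℚ) * (m : ℚ) = 1 := by
      rw [h8, mul_inv_cancel₀ h7]
    exact_mod_cast h9
  exact Int.eq_one_or_neg_one_of_mul_eq_one h6

theorem fin : Pool.Agent.P8H59.An.S_FIN := by
  intro n E _ _ M _ _ _ c γ hc1 hc2 U Z u z hHm hU hZ hu hz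
  set A : Matrix (Fin n ⊕ E) (Fin n ⊕ E) ℚ := Matrix.fromBlocks U 0 0 Z with hA
  set f : M →ₗ[ℚ] M := Matrix.toLin c c A with hf
  have hfi : ∀ i, f (c (Sum.inl i)) = ∑ l, U l i • c (Sum.inl l) := by
    intro i
    rw [hf, Matrix.toLin_self, Fintype.sum_sum_type]
    simp [hA]
  have hfe : ∀ e, f (c (Sum.inr e)) = ∑ l, Z l e • c (Sum.inr l) := by
    intro e
    rw [hf, Matrix.toLin_self, Fintype.sum_sum_type]
    simp [hA]
  have hcomm : ∀ e k, ⁅c k, c (Sum.inr e)⁆ = 0 := by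
    intro e k
    rw [← lie_skew, hc2, neg_zero]
  rw [Pool.Agent.P8H59.An.isHm_iff] at hHm
  -- the charpoly
  have hch : f.charpoly = U.charpoly * Z.charpoly := by
    rw [hf, Matrix.charpoly_toLin, hA, Matrix.charpoly_fromBlocks_zero₁₂]
  have hprod : f.charpoly.map (algebraMap ℚ ℝ) =
      ∏ k : Fin n ⊕ E, (X - C (Sum.elim u z k)) := by
    rw [hch, Polynomial.map_mul, hU, hZ, Fintype.prod_sum_type]
    rfl
  have hint : ∀ k, IsIntegral ℤ (Sum.elim u z k) := by
    rintro (i | e)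
    · exact (hu i).1
    · exact (hz e).1
  have hint' : ∀ k, IsIntegral ℤ (Sum.elim u z k)⁻¹ := by
    rintro (i | e)
    · exact (hu i).2.1
    · exact (hz e).2.1
  have hne : ∀ k, Sum.elim u z k ≠ 0 := by
    rintro (i | e)
    · exact (hu i).2.2.1
    · exact (hz e).2.2.1
  have habs : ∀ k, |Sum.elim u z k| ≠ 1 := by
    rintro (i | e)
    · exact (hu i).2.2.2
    · exact (hz e).2.2.2
  obtain ⟨q, hq⟩ := lift_int hint hprod
  rw [← hq] at hprod
  have hq0 := unit_const hint' hne hprod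
  -- the Lie homomorphism
  have hlie : ∀ x y : M, f ⁅x, y⁆ = ⁅f x, f y⁆ := by
    let B1 : M →ₗ[ℚ] M →ₗ[ℚ] M := LinearMap.mk₂ ℚ (fun x y => f ⁅x, y⁆)
      (by intros; simp) (by intros; simp) (by intros; simp) (by intros; simp)
    let B2 : M →ₗ[ℚ] M →ₗ[ℚ] M := LinearMap.mk₂ ℚ (fun x y => ⁅f x, f y⁆)
      (by intros; simp) (by intros; simp) (by intros; simp) (by intros; simp)
    have hB : B1 = B2 := by
      refine LinearMap.ext_basis c c ?_
      rintro (i | e) (j | e')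
      · show f ⁅c (Sum.inl i), c (Sum.inl j)⁆ = ⁅f (c (Sum.inl i)), f (c (Sum.inl j))⁆
        rw [hc1, map_sum, hfi, hfi]
        simp_rw [map_smul, hfe, sum_lie, lie_sum, smul_lie, lie_smul, hc1, Finset.smul_sum, smul_smul]
        rw [Finset.sum_comm]
        have h1 : ∀ e, ∑ x, (γ i j x * Z e x) • c (Sum.inr e) =
            ∑ l, ∑ m, (U l i * U m j * γ l m e) • c (Sum.inr e) := by
          intro e
          rw [← Finset.sum_smul]
          simp_rw [← Finset.sum_smul]
          congr 1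
          rw [← hHm i j e]
          exact Finset.sum_congr rfl fun x _ => mul_comm _ _
        simp_rw [h1]
        rw [Finset.sum_comm]
        refine Finset.sum_congr rfl fun l _ => ?_
        rw [Finset.sum_comm]
        refine Finset.sum_congr rfl fun m _ => ?_
        refine Finset.sum_congr rfl fun e _ => ?_
        congr 1
        try ring
      · show f ⁅c (Sum.inl i), c (Sum.inr e')⁆ = ⁅f (c (Sum.inl i)), f (c (Sum.inr e'))⁆
        rw [hcomm, map_zero, hfe]
        rw [lie_sum]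
        refine (Finset.sum_eq_zero fun l _ => ?_).symm
        rw [lie_smul, hfi, sum_lie]
        rw [Finset.sum_eq_zero fun m _ => by rw [smul_lie, hcomm, smul_zero], smul_zero]
      · show f ⁅c (Sum.inr e), c (Sum.inl j)⁆ = ⁅f (c (Sum.inr e)), f (c (Sum.inl j))⁆
        rw [hc2, map_zero, hfe, sum_lie]
        refine (Finset.sum_eq_zero fun l _ => ?_).symm
        rw [smul_lie, hfi, lie_sum]
        rw [Finset.sum_eq_zero fun m _ => by rw [lie_smul, hc2, smul_zero], smul_zero]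
      · show f ⁅c (Sum.inr e), c (Sum.inr e')⁆ = ⁅f (c (Sum.inr e)), f (c (Sum.inr e'))⁆
        rw [hc2, map_zero, hfe, sum_lie]
        refine (Finset.sum_eq_zero fun l _ => ?_).symm
        rw [smul_lie, hfe, lie_sum]
        rw [Finset.sum_eq_zero fun m _ => by rw [lie_smul, hc2, smul_zero], smul_zero]
    intro x y
    exact congrFun (congrArg DFunLike.coe (congrFun (congrArg DFunLike.coe hB) x)) y
  let F : M →ₗ⁅ℚ⁆ M := { f with map_lie' := fun {x y} => hlie x y }
  have hdet : LinearMap.det f ≠ 0 := by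
    intro h0
    have h1 : f.charpoly.coeff 0 = 0 := by
      rw [← LinearMap.charpoly_toMatrix f c, ← LinearMap.det_toMatrix c f] at *
      rw [Matrix.det_eq_sign_charpoly_coeff] at h0
      rcases mul_eq_zero.1 h0 with h | h
      · exact absurd h (pow_ne_zero _ (by norm_num))
      · exact h
    rw [← hq, coeff_map] at h1
    rcases hq0 with h | h
    · rw [h] at h1
      norm_num at h1
    · rw [h] at h1
      norm_num at h1
  have hbij : Function.Bijective F := by
    have : IsUnit (LinearMap.det f) := isUnit_iff_ne_zero.2 hdet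
    exact (LinearEquiv.ofIsUnitDet (f := f) (v := c) (v' := c) (by
      rw [LinearMap.det_toMatrix]; exact this)).bijective
  refine ⟨LieEquiv.ofBijective F hbij, q, hq, hq0, ?_⟩
  intro ζ hζ
  have h1 : q.map (Int.castRingHom ℂ) = ∏ k : Fin n ⊕ E, (X - C ((Sum.elim u z k : ℝ) : ℂ)) := by
    have h2 := congrArg (Polynomial.map (algebraMap ℝ ℂ)) hprod
    rw [Polynomial.map_map, Polynomial.map_map, Polynomial.map_prod] at h2
    have h3 : ((algebraMap ℝ ℂ).comp ((algebraMap ℚ ℝ).comp (Int.castRingHom ℚ))) =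
        Int.castRingHom ℂ := RingHom.ext_int _ _
    rw [← RingHom.comp_assoc] at h3
    rw [h3] at h2
    rw [h2]
    refine Finset.prod_congr rfl fun k _ => ?_
    rw [Polynomial.map_sub, Polynomial.map_X, Polynomial.map_C]
    rfl
  rw [h1, IsRoot.def, eval_prod, Finset.prod_eq_zero_iff] at hζ
  obtain ⟨k, _, hk⟩ := hζ
  rw [eval_sub, eval_X, eval_C, sub_eq_zero] at hk
  rw [hk, Complex.norm_real, Real.norm_eq_abs]
  exact habs k

end Pool.Agent.P8H43.An
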