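import Pool.Agent.P8H59.An.Stm2

/-!
# Package PERT (written by helper43)
-/

set_option autoImplicit false

open Polynomial Matrix Filter Topology

namespace Pool.Agent.P8H43.An

lemma root_of_neg {f : ℝ → ℝ} (hf : Continuous f) {a b : ℝ} (hab : a ≤ b) (h : f a * f b < 0) :
    ∃ x ∈ Set.Icc a b, f x = 0 := by
  rcases mul_neg_iff.1 h with ⟨h1, h2⟩ | ⟨h1, h2⟩
  · have := intermediate_value_Icc' hab hf.continuousOn (⟨h2.le, h1.le⟩ : (0:ℝ) ∈ Set.Icc (f b) (f a))
    obtain ⟨x, hx, hx2⟩ := this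
    exact ⟨x, hx, hx2⟩
  · have := intermediate_value_Icc hab hf.continuousOn (⟨h1.le, h2.le⟩ : (0:ℝ) ∈ Set.Icc (f a) (f b))
    obtain ⟨x, hx, hx2⟩ := this
    exact ⟨x, hx, hx2⟩

theorem pert : Pool.Agent.P8H59.An.S_PERT := by
  intro ι _ _ τ hτ
  rw [Filter.eventually_all]
  intro i
  have hcont : ∀ s : ℝ, Continuous fun A : Matrix ι ι ℝ => A.charpoly.eval s := by
    intro s
    simp_rw [Matrix.eval_charpoly]
    exact Continuous.matrix_det (by fun_prop)
  have hdiag : ∀ s : ℝ, (Matrix.diagonal fun i => (τ i : ℝ)).charpoly.eval s =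
      ∏ j, (s - τ j) := by
    intro s
    rw [Matrix.charpoly_diagonal, eval_prod]
    refine Finset.prod_congr rfl fun j _ => ?_
    simp
  have hneg : (Matrix.diagonal fun i => (τ i : ℝ)).charpoly.eval ((τ i : ℝ) - 1 / 20) *
      (Matrix.diagonal fun i => (τ i : ℝ)).charpoly.eval ((τ i : ℝ) + 1 / 20) < 0 := by
    rw [hdiag, hdiag, ← Finset.prod_mul_distrib, ← Finset.mul_prod_erase _ _ (Finset.mem_univ i)]
    refine mul_neg_of_neg_of_pos ?_ (Finset.prod_pos fun j hj => ?_)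
    · have : ((τ i : ℝ) - 1 / 20 - τ i) * ((τ i : ℝ) + 1 / 20 - τ i) = -(1 / 400) := by ring
      rw [this]
      norm_num
    · have hne : (τ i : ℤ) - τ j ≠ 0 := by
        rw [sub_ne_zero]
        intro h
        exact (Finset.ne_of_mem_erase hj) (hτ (by exact_mod_cast h)).symm
      have h1 : (1:ℤ) ≤ ((τ i : ℤ) - τ j) ^ 2 := by
        have := sq_pos_of_ne_zero hne
        omega
      have h2 : (1:ℝ) ≤ ((τ i : ℝ) - τ j) ^ 2 := by exact_mod_cast h1
      nlinarith
  have hev : ∀ᶠ A : Matrix ι ι ℝ in 𝓝 (Matrix.diagonal fun i => (τ i : ℝ)),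
      A.charpoly.eval ((τ i : ℝ) - 1 / 20) * A.charpoly.eval ((τ i : ℝ) + 1 / 20) < 0 :=
    ((hcont _).mul (hcont _)).continuousAt.eventually_lt continuousAt_const hneg
  filter_upwards [hev] with A hA
  obtain ⟨x, hx, hx2⟩ := root_of_neg A.charpoly.continuous (by linarith) hA
  refine ⟨x, ?_, hx2⟩
  rw [abs_lt]
  constructor
  · linarith [hx.1]
  · linarith [hx.2]

end Pool.Agent.P8H43.An
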