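import Pool.Agent.P8H59.An.Stm3

/-!
# Package REAL (written by helper43)
-/

set_option autoImplicit false

open Polynomial Matrix

namespace Pool.Agent.P8H43.An

open Pool.Agent.P8H59.An

section general

variable {K ι κ : Type*} [Field K] [Fintype ι] [DecidableEq ι] [Fintype κ] [DecidableEq κ]

lemma diag_charpoly (M : Matrix ι ι K) (v : Module.Basis κ K (ι → K)) (μ : κ → K)
    (h : ∀ i, M *ᵥ v i = μ i • v i) : M.charpoly = ∏ i, (X - C (μ i)) := by
  rw [← Matrix.charpoly_toLin' M, ← LinearMap.charpoly_toMatrix (Matrix.toLin' M) v]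
  have h1 : LinearMap.toMatrix v v (Matrix.toLin' M) = Matrix.diagonal μ := by
    ext i j
    rw [LinearMap.toMatrix_apply, Matrix.toLin'_apply, h j, map_smul, Finsupp.smul_apply,
      v.repr_self, Matrix.diagonal_apply]
    by_cases hij : i = j
    · subst hij; simp
    · rw [if_neg hij, Finsupp.single_apply, if_neg (fun h => hij h.symm)]; simp
  rw [h1, Matrix.charpoly_diagonal]

lemma exists_eig {M : Matrix ι ι K} {μ : K} (h : M.charpoly.IsRoot μ) :
    ∃ v : ι → K, v ≠ 0 ∧ M *ᵥ v = μ • v := by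
  rw [Polynomial.IsRoot.def, Matrix.eval_charpoly] at h
  obtain ⟨v, hv, hv2⟩ := Matrix.exists_mulVec_eq_zero_iff.2 h
  refine ⟨v, hv, ?_⟩
  rw [Matrix.sub_mulVec, sub_eq_zero] at hv2
  rw [← hv2]
  ext i
  simp [Matrix.scalar_apply, Matrix.mulVec_diagonal]

lemma root_of_eig {M : Matrix ι ι K} {μ : K} {v : ι → K} (hv : v ≠ 0) (h : M *ᵥ v = μ • v) :
    M.charpoly.IsRoot μ := by
  rw [Polynomial.IsRoot.def, Matrix.eval_charpoly]
  refine Matrix.exists_mulVec_eq_zero_iff.1 ⟨v, hv, ?_⟩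
  rw [Matrix.sub_mulVec, sub_eq_zero, h]
  ext i
  simp [Matrix.scalar_apply, Matrix.mulVec_diagonal]

lemma eig_basis (M : Matrix ι ι K) (μ : ι → K) (hμ : Function.Injective μ)
    (h : ∀ i, M.charpoly.IsRoot (μ i)) :
    ∃ v : Module.Basis ι K (ι → K), ∀ i, M *ᵥ v i = μ i • v i := by
  choose v hv hv2 using fun i => exists_eig (h i)
  have hli : LinearIndependent K v :=
    Module.End.eigenvectors_linearIndependent' (Matrix.toLin' M) μ hμ v fun i =>
      ⟨Module.End.mem_eigenspace_iff.2 (by rw [Matrix.toLin'_apply]; exact hv2 i), hv i⟩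
  have hsp := hli.span_eq_top_of_card_eq_finrank' (by simp)
  refine ⟨Module.Basis.mk hli hsp.ge, fun i => ?_⟩
  rw [Module.Basis.mk_apply]
  exact hv2 i

lemma aeval_mulVec {R : Type*} [CommRing R] [Algebra R K] (M : Matrix ι ι K) (v : ι → K) (μ : K)
    (h : M *ᵥ v = μ • v) (p : R[X]) : (aeval M p) *ᵥ v = (aeval μ p) • v := by
  induction p using Polynomial.induction_on' with
  | add p q hp hq => rw [map_add, map_add, Matrix.add_mulVec, hp, hq, add_smul]
  | monomial n a =>
    rw [aeval_monomial, aeval_monomial]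
    have h1 : ∀ k : ℕ, (M ^ k) *ᵥ v = (μ ^ k) • v := by
      intro k
      induction k with
      | zero => simp
      | succ k ih =>
        rw [pow_succ', ← Matrix.mulVec_mulVec, ih, Matrix.mulVec_smul, h, smul_smul, pow_succ]
    rw [← Matrix.mulVec_mulVec, h1, Matrix.algebraMap_eq_diagonal, mul_smul]
    ext i
    simp [Matrix.mulVec_diagonal]

end general

/-! ### the edges -/

set_option linter.unusedSectionVars false

lemma pow_sum_lt {a b c d : ℕ} (hab : a < b) (hcd : c < d) (h : 4 ^ a + 4 ^ b = 4 ^ c + 4 ^ d) :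
    b = d := by
  rcases lt_trichotomy b d with h1 | h1 | h1
  · exfalso
    have e1 : 4 ^ a < 4 ^ b := Nat.pow_lt_pow_right (by norm_num) hab
    have e2 : 4 ^ (b + 1) ≤ 4 ^ d := Nat.pow_le_pow_right (by norm_num) h1
    rw [pow_succ] at e2
    have e3 : 0 < 4 ^ c := by positivity
    omega
  · exact h1
  · exfalso
    have e1 : 4 ^ c < 4 ^ d := Nat.pow_lt_pow_right (by norm_num) hcd
    have e2 : 4 ^ (d + 1) ≤ 4 ^ b := Nat.pow_le_pow_right (by norm_num) h1
    rw [pow_succ] at e2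
    have e3 : 0 < 4 ^ a := by positivity
    omega

lemma pow_sum {n : ℕ} {i j a b : Fin n} (hij : i ≠ j) (hab : a < b)
    (h : 4 ^ (i : ℕ) + 4 ^ (j : ℕ) = 4 ^ (a : ℕ) + 4 ^ (b : ℕ)) : s(i, j) = s(a, b) := by
  have hab' : (a : ℕ) < b := hab
  rcases lt_or_gt_of_ne hij with h1 | h1
  · have h1' : (i : ℕ) < j := h1
    have e := pow_sum_lt h1' hab' h
    rw [e] at h
    have e2 : 4 ^ (i : ℕ) = 4 ^ (a : ℕ) := by omega
    have e3 := Nat.pow_right_injective (by norm_num : 2 ≤ 4) e2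
    rw [Fin.ext e3, Fin.ext e]
  · have h1' : (j : ℕ) < i := h1
    rw [add_comm] at h
    have e := pow_sum_lt h1' hab' h
    rw [e] at h
    have e2 : 4 ^ (j : ℕ) = 4 ^ (a : ℕ) := by omega
    have e3 := Nat.pow_right_injective (by norm_num : 2 ≤ 4) e2
    rw [Fin.ext e3, Fin.ext e, Sym2.eq_swap]

lemma edge_facts {n : ℕ} {G : SimpleGraph (Fin n)} (e : G.edgeSet) :
    s(e.1.inf, e.1.sup) = e.1 ∧ e.1.inf < e.1.sup ∧ G.Adj e.1.inf e.1.sup := by
  obtain ⟨e, he⟩ := e
  induction e using Sym2.ind with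
  | _ a b =>
    rw [SimpleGraph.mem_edgeSet] at he
    rcases lt_or_gt_of_ne he.ne with h | h
    · simp only [Sym2.inf_mk, Sym2.sup_mk, inf_eq_left.2 h.le, sup_eq_right.2 h.le]
      exact ⟨trivial, h, he⟩
    · simp only [Sym2.inf_mk, Sym2.sup_mk, inf_eq_right.2 h.le, sup_eq_left.2 h.le]
      exact ⟨Sym2.eq_swap, h, he.symm⟩

section main

variable {n : ℕ} {G : SimpleGraph (Fin n)} [Fintype G.edgeSet] [DecidableEq G.edgeSet]

lemma near_int {a b : ℕ} {x y : ℝ} (hx : |x - a| < 2 / 10) (hy : |y - b| < 1 / 10) (h : x = y) :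
    a = b := by
  rw [abs_lt] at hx hy
  have h1 : ((a : ℤ) : ℝ) - (b : ℤ) < 1 := by push_cast; linarith
  have h2 : -1 < ((a : ℤ) : ℝ) - (b : ℤ) := by push_cast; linarith
  have h3 : (a : ℤ) - b < 1 := by exact_mod_cast h1
  have h4 : -1 < (a : ℤ) - b := by exact_mod_cast h2
  omega

lemma inj_x {T : ℝ} {ξ : Fin n → ℝ} (hT : 0 < T) (hξ : ∀ i, |ξ i - 4 ^ (i : ℕ)| < 1 / 10) :
    Function.Injective fun i => T * ξ i := by
  intro i j hij
  have h1 : ξ i = ξ j := mul_left_cancel₀ hT.ne' hij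
  have h2 : 4 ^ (i : ℕ) = 4 ^ (j : ℕ) := near_int (x := ξ i) (y := ξ j)
    (by have := hξ i; push_cast; linarith) (by have := hξ j; push_cast; exact this) h1
  exact Fin.ext (Nat.pow_right_injective (by norm_num : 2 ≤ 4) h2)

lemma inj_y {T : ℝ} {υ : G.edgeSet → ℝ} (hT : 0 < T)
    (hυ : ∀ e : G.edgeSet, |υ e - (4 ^ (e.1.inf : ℕ) + 4 ^ (e.1.sup : ℕ))| < 1 / 10) :
    Function.Injective fun e => T * υ e := by
  intro e e' hee
  have h1 : υ e = υ e' := mul_left_cancel₀ hT.ne' hee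
  have h2 : 4 ^ (e.1.inf : ℕ) + 4 ^ (e.1.sup : ℕ) = 4 ^ (e'.1.inf : ℕ) + 4 ^ (e'.1.sup : ℕ) :=
    near_int (x := υ e) (y := υ e')
    (by have := hυ e; push_cast; linarith) (by have := hυ e'; push_cast; exact this) h1
  obtain ⟨a1, a2, _⟩ := edge_facts e
  obtain ⟨b1, b2, _⟩ := edge_facts e'
  have h3 := pow_sum a2.ne b2 h2
  rw [a1, b1] at h3
  exact Subtype.ext h3

end main

theorem real : S_REAL := by
  intro n G _ _ γ hspan hanti A B hder T ξ υ hT hξ hυ
  set γ' := bc (algebraMap ℚ ℝ) γ with hγ'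
  set A' := A.map (algebraMap ℚ ℝ) with hA'
  set B' := B.map (algebraMap ℚ ℝ) with hB'
  have hder' : IsDer γ' A' B' := hder.map _
  have hchA : A'.charpoly = A.charpoly.map (algebraMap ℚ ℝ) := Matrix.charpoly_map _ _
  have hchB : B'.charpoly = B.charpoly.map (algebraMap ℚ ℝ) := Matrix.charpoly_map _ _
  have hxinj : Function.Injective fun i => T * ξ i := inj_x hT fun i => (hξ i).1
  have hyinj : Function.Injective fun e => T * υ e := inj_y hT fun e => (hυ e).1
  obtain ⟨z, hz⟩ := eig_basis A' (fun i => T * ξ i) hxinj fun i => by rw [hchA]; exact (hξ i).2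
  obtain ⟨θ, hθ⟩ := eig_basis B' (fun e => T * υ e) hyinj fun e => by rw [hchB]; exact (hυ e).2
  have hcA : A'.charpoly = ∏ i, (X - C (T * ξ i)) := diag_charpoly A' z _ hz
  have hcB : B'.charpoly = ∏ e, (X - C (T * υ e)) := diag_charpoly B' θ _ hθ
  -- antisymmetry
  have hanti' : ∀ a b, br γ' a b = - br γ' b a := by
    intro a b
    ext e
    rw [Pi.neg_apply, br_apply, br_apply, Finset.sum_comm, ← Finset.sum_neg_distrib]
    refine Finset.sum_congr rfl fun i _ => ?_
    rw [← Finset.sum_neg_distrib]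
    refine Finset.sum_congr rfl fun j _ => ?_
    have : γ' j i e = - γ' i j e := by
      show algebraMap ℚ ℝ (γ j i e) = - algebraMap ℚ ℝ (γ i j e)
      rw [hanti j i e, map_neg]
    rw [this]
    ring
  have hself : ∀ a, br γ' a a = 0 := by
    intro a
    ext e
    have h1 := congrFun (hanti' a a) e
    rw [Pi.neg_apply] at h1
    rw [Pi.zero_apply]
    linarith
  -- the brackets of the eigenvectors
  have hw : ∀ i j, B' *ᵥ br γ' (z i) (z j) = (T * ξ i + T * ξ j) • br γ' (z i) (z j) := by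
    intro i j
    rw [← hder' (z i) (z j), hz i, hz j, map_smul, map_smul, LinearMap.smul_apply, add_smul]
  have hadj : ∀ i j, br γ' (z i) (z j) ≠ 0 → ∃ e : G.edgeSet, e.1 = s(i, j) := by
    intro i j h0
    have hij : i ≠ j := by
      rintro rfl
      exact h0 (hself _)
    have h1 := root_of_eig h0 (hw i j)
    rw [hcB, IsRoot.def, eval_prod, Finset.prod_eq_zero_iff] at h1
    obtain ⟨e, _, he⟩ := h1
    rw [eval_sub, eval_X, eval_C, sub_eq_zero, ← mul_add] at he
    have h2 : ξ i + ξ j = υ e := mul_left_cancel₀ hT.ne' he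
    obtain ⟨a1, a2, _⟩ := edge_facts e
    have h3 : 4 ^ (i : ℕ) + 4 ^ (j : ℕ) = 4 ^ (e.1.inf : ℕ) + 4 ^ (e.1.sup : ℕ) := by
      refine near_int (x := ξ i + ξ j) (y := υ e) ?_ ?_ h2
      · have b1 := (hξ i).1
        have b2 := (hξ j).1
        push_cast
        rw [abs_lt] at *
        constructor <;> linarith
      · have b3 := (hυ e).1
        push_cast
        exact b3
    exact ⟨e, by rw [pow_sum hij a2 h3, a1]⟩
  -- the basis
  set ω : G.edgeSet → (G.edgeSet → ℝ) := fun e => br γ' (z e.1.inf) (z e.1.sup) with hω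
  have hwω : ∀ (i j : Fin n) (e : G.edgeSet), e.1 = s(i, j) →
      (i = e.1.inf ∧ j = e.1.sup) ∨ (i = e.1.sup ∧ j = e.1.inf) := by
    intro i j e he
    have h1 := (edge_facts e).1
    rw [he] at h1
    rcases Sym2.eq_iff.1 h1 with ⟨h2, h3⟩ | ⟨h2, h3⟩
    · left
      rw [he]
      exact ⟨h2.symm, h3.symm⟩
    · right
      rw [he]
      exact ⟨h3.symm, h2.symm⟩
  have hmemw : ∀ i j, br γ' (z i) (z j) ∈ Submodule.span ℝ (Set.range ω) := by
    intro i j
    by_cases h0 : br γ' (z i) (z j) = 0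
    · rw [h0]
      exact Submodule.zero_mem _
    · obtain ⟨e, he⟩ := hadj i j h0
      rcases hwω i j e he with ⟨h2, h3⟩ | ⟨h2, h3⟩
      · rw [h2, h3]
        exact Submodule.subset_span ⟨e, rfl⟩
      · rw [h2, h3, hanti']
        exact Submodule.neg_mem _ (Submodule.subset_span ⟨e, rfl⟩)
  have hmem : ∀ a b, br γ' a b ∈ Submodule.span ℝ (Set.range ω) := by
    intro a b
    rw [← z.sum_repr a, ← z.sum_repr b, map_sum]
    refine Submodule.sum_mem _ fun j _ => ?_
    rw [map_smul, map_sum, LinearMap.sum_apply]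
    refine Submodule.smul_mem _ _ (Submodule.sum_mem _ fun i _ => ?_)
    rw [map_smul, LinearMap.smul_apply]
    exact Submodule.smul_mem _ _ (hmemw i j)
  -- rational combinations of the structure constants
  have hcomb : ∀ e : G.edgeSet, ∃ c : Fin n × Fin n → ℚ,
      (Pi.single e 1 : G.edgeSet → ℚ) = ∑ ij, c ij • γ ij.1 ij.2 := by
    intro e
    have h1 : (Pi.single e 1 : G.edgeSet → ℚ) ∈
        Submodule.span ℚ (Set.range fun ij : Fin n × Fin n => γ ij.1 ij.2) := by
      rw [hspan]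
      exact Submodule.mem_top
    obtain ⟨c, hc⟩ := (Submodule.mem_span_range_iff_exists_fun ℚ).1 h1
    exact ⟨c, hc.symm⟩
  choose cc hcc using hcomb
  have hbrs : ∀ i j, br γ' (Pi.single i 1) (Pi.single j 1) = γ' i j := fun i j => br_single _ _ _
  have hcc' : ∀ e : G.edgeSet, (Pi.single e 1 : G.edgeSet → ℝ) =
      ∑ ij : Fin n × Fin n, (algebraMap ℚ ℝ (cc e ij)) • γ' ij.1 ij.2 := by
    intro e
    ext f
    have h1 := congrArg (algebraMap ℚ ℝ) (congrFun (hcc e) f)
    rw [Finset.sum_apply, map_sum] at h1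
    rw [Finset.sum_apply]
    have h2 : algebraMap ℚ ℝ ((Pi.single e 1 : G.edgeSet → ℚ) f) =
        (Pi.single e 1 : G.edgeSet → ℝ) f := by
      by_cases hef : f = e
      · subst hef; simp
      · simp [hef]
    rw [← h2, h1]
    refine Finset.sum_congr rfl fun ij _ => ?_
    rw [Pi.smul_apply, smul_eq_mul, map_mul]
    rfl
  have htop : ⊤ ≤ Submodule.span ℝ (Set.range ω) := by
    intro x _
    rw [pi_decomp x]
    refine Submodule.sum_mem _ fun e _ => Submodule.smul_mem _ _ ?_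
    rw [hcc' e]
    refine Submodule.sum_mem _ fun ij _ => Submodule.smul_mem _ _ ?_
    rw [← hbrs]
    exact hmem _ _
  let ωb : Module.Basis G.edgeSet ℝ (G.edgeSet → ℝ) :=
    basisOfTopLeSpanOfCardEqFinrank ω htop (by simp)
  have hωb : ∀ e, ωb e = ω e := fun e => by
    show (basisOfTopLeSpanOfCardEqFinrank ω htop (by simp)) e = ω e
    rw [coe_basisOfTopLeSpanOfCardEqFinrank]
  -- polynomials in `A`
  have hev : ∀ h : ℚ[X], (aeval A h).map (algebraMap ℚ ℝ) = aeval A' h := by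
    intro h
    have h1 := Polynomial.aeval_algHom_apply ((Algebra.ofId ℚ ℝ).mapMatrix (m := Fin n)) A h
    exact h1.symm
  have hUz : ∀ (h : ℚ[X]) i, ((aeval A h).map (algebraMap ℚ ℝ)) *ᵥ z i =
      (aeval (T * ξ i) h) • z i := by
    intro h i
    rw [hev]
    exact aeval_mulVec A' (z i) _ (hz i) h
  have hrat : ∀ (U : Matrix (Fin n) (Fin n) ℚ) (a b : Fin n),
      br γ' ((U.map (algebraMap ℚ ℝ)) *ᵥ Pi.single a 1) ((U.map (algebraMap ℚ ℝ)) *ᵥ Pi.single b 1) =
      fun e => algebraMap ℚ ℝ (br γ (U *ᵥ Pi.single a 1) (U *ᵥ Pi.single b 1) e) := by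
    intro U a b
    rw [← br_bc]
    have h1 : ∀ a, (U.map (algebraMap ℚ ℝ)) *ᵥ (Pi.single a 1 : Fin n → ℝ) =
        fun i => algebraMap ℚ ℝ ((U *ᵥ (Pi.single a 1 : Fin n → ℚ)) i) := by
      intro a
      ext i
      simp
    rw [h1, h1]
  refine ⟨hxinj, by rw [← hchA]; exact hcA, ?_, ?_⟩
  · intro i j hAdj g h hgh hgi hgj hzero
    -- the other factor does not vanish
    have hne : ∀ l, aeval (T * ξ l) g = 0 → aeval (T * ξ l) h ≠ 0 := by
      intro l hgl hhl
      have h1 : (g.map (algebraMap ℚ ℝ)) * (h.map (algebraMap ℚ ℝ)) = ∏ i, (X - C (T * ξ i)) := by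
        rw [← Polynomial.map_mul, ← hgh, ← hchA]
        exact hcA
      have hn0 : (∏ i, (X - C (T * ξ i)) : ℝ[X]) ≠ 0 :=
        (monic_prod_of_monic _ _ fun i _ => monic_X_sub_C _).ne_zero
      have h2 : (∏ i, (X - C (T * ξ i)) : ℝ[X]).roots.Nodup := by
        have h3 : (∏ i, (X - C (T * ξ i)) : ℝ[X]) =
            ∏ a ∈ Finset.univ.image (fun i => T * ξ i), (X - C a) := by
          rw [Finset.prod_image (fun a _ b _ hab => hxinj hab)]
        rw [h3, roots_prod_X_sub_C]
        exact Finset.nodup _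
      rw [← h1] at h2 hn0
      rw [roots_mul hn0, Multiset.nodup_add] at h2
      have m1 : T * ξ l ∈ (g.map (algebraMap ℚ ℝ)).roots := by
        rw [mem_roots (left_ne_zero_of_mul hn0), IsRoot.def, eval_map_algebraMap]
        exact hgl
      have m2 : T * ξ l ∈ (h.map (algebraMap ℚ ℝ)).roots := by
        rw [mem_roots (right_ne_zero_of_mul hn0), IsRoot.def, eval_map_algebraMap]
        exact hhl
      exact Multiset.disjoint_left.1 h2.2.2 m1 m2
    -- bilinear extension
    have hall : ∀ a b, br γ' (((aeval A h).map (algebraMap ℚ ℝ)) *ᵥ a)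
        (((aeval A h).map (algebraMap ℚ ℝ)) *ᵥ b) = 0 := by
      let f : (Fin n → ℝ) →ₗ[ℝ] (Fin n → ℝ) →ₗ[ℝ] (G.edgeSet → ℝ) :=
        (br γ').compl₁₂ (Matrix.mulVecLin ((aeval A h).map (algebraMap ℚ ℝ)))
          (Matrix.mulVecLin ((aeval A h).map (algebraMap ℚ ℝ)))
      have hf : f = 0 := by
        refine bilin_ext f 0 fun a b => ?_
        show br γ' (((aeval A h).map (algebraMap ℚ ℝ)) *ᵥ Pi.single a 1)
          (((aeval A h).map (algebraMap ℚ ℝ)) *ᵥ Pi.single b 1) = 0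
        rw [hrat, hzero]
        ext e
        simp
      intro a b
      exact congrFun (congrArg DFunLike.coe (congrFun (congrArg DFunLike.coe hf) a)) b
    have h1 := hall (z i) (z j)
    rw [hUz, hUz, map_smul, map_smul, LinearMap.smul_apply] at h1
    have h2 : br γ' (z i) (z j) = 0 := by
      rcases smul_eq_zero.1 h1 with h | h
      · exact absurd h (hne j hgj)
      · rcases smul_eq_zero.1 h with h | h
        · exact absurd h (hne i hgi)
        · exact h
    -- contradiction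
    let e : G.edgeSet := ⟨s(i, j), G.mem_edgeSet.2 hAdj⟩
    have h3 : ωb e ≠ 0 := ωb.ne_zero e
    apply h3
    rw [hωb]
    show br γ' (z e.1.inf) (z e.1.sup) = 0
    rcases hwω i j e rfl with ⟨b1, b2⟩ | ⟨b1, b2⟩
    · rw [← b1, ← b2, h2]
    · rw [← b1, ← b2, hanti', h2, neg_zero]
  · intro h
    set U' := (aeval A h).map (algebraMap ℚ ℝ) with hU'
    set ce : G.edgeSet → ℝ := fun e => aeval (T * ξ e.1.inf) h * aeval (T * ξ e.1.sup) h with hce
    let Z' : (G.edgeSet → ℝ) →ₗ[ℝ] (G.edgeSet → ℝ) := ωb.constr ℝ fun e => ce e • ω e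
    have hZω : ∀ e, Z' (ω e) = ce e • ω e := by
      intro e
      have := ωb.constr_basis ℝ (fun e => ce e • ω e) e
      rw [hωb] at this
      exact this
    have hZw : ∀ i j, Z' (br γ' (z i) (z j)) =
        (aeval (T * ξ i) h * aeval (T * ξ j) h) • br γ' (z i) (z j) := by
      intro i j
      by_cases h0 : br γ' (z i) (z j) = 0
      · rw [h0, map_zero, smul_zero]
      · obtain ⟨e, he⟩ := hadj i j h0
        rcases hwω i j e he with ⟨h2, h3⟩ | ⟨h2, h3⟩
        · rw [h2, h3]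
          exact hZω e
        · rw [h2, h3, hanti' (z e.1.sup) (z e.1.inf), map_neg, mul_comm, smul_neg]
          congr 1
          exact hZω e
    have hZ : ∀ a b, Z' (br γ' a b) = br γ' (U' *ᵥ a) (U' *ᵥ b) := by
      let f : (Fin n → ℝ) →ₗ[ℝ] (Fin n → ℝ) →ₗ[ℝ] (G.edgeSet → ℝ) := (br γ').compr₂ Z'
      let g : (Fin n → ℝ) →ₗ[ℝ] (Fin n → ℝ) →ₗ[ℝ] (G.edgeSet → ℝ) :=
        (br γ').compl₁₂ (Matrix.mulVecLin U') (Matrix.mulVecLin U')
      have hfg : f = g := by
        refine LinearMap.ext_basis z z fun i j => ?_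
        show Z' (br γ' (z i) (z j)) = br γ' (U' *ᵥ z i) (U' *ᵥ z j)
        rw [hZw, hUz, hUz, map_smul, map_smul, LinearMap.smul_apply, smul_smul, mul_comm]
      intro a b
      exact congrFun (congrArg DFunLike.coe (congrFun (congrArg DFunLike.coe hfg) a)) b
    -- the rational matrix
    let Z : Matrix G.edgeSet G.edgeSet ℚ := Matrix.of fun f e =>
      ∑ ij : Fin n × Fin n, cc e ij *
        br γ (aeval A h *ᵥ Pi.single ij.1 1) (aeval A h *ᵥ Pi.single ij.2 1) f
    have hZmap : ∀ x, (Z.map (algebraMap ℚ ℝ)) *ᵥ x = Z' x := by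
      intro x
      have h1 : Matrix.mulVecLin (Z.map (algebraMap ℚ ℝ)) = Z' := by
        refine LinearMap.pi_ext' fun e => LinearMap.ext_ring ?_
        show (Z.map (algebraMap ℚ ℝ)) *ᵥ (Pi.single e 1) = Z' (Pi.single e 1)
        rw [hcc' e, map_sum]
        ext f
        rw [← hcc' e]
        rw [Finset.sum_apply]
        simp only [map_smul, Pi.smul_apply, smul_eq_mul]
        rw [Matrix.mulVec_single_one]
        show algebraMap ℚ ℝ (Z f e) = _
        show algebraMap ℚ ℝ (∑ ij : Fin n × Fin n, cc e ij *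
          br γ (aeval A h *ᵥ Pi.single ij.1 1) (aeval A h *ᵥ Pi.single ij.2 1) f) = _
        rw [map_sum]
        refine Finset.sum_congr rfl fun ij _ => ?_
        rw [map_mul, ← hbrs, hZ, hU', hrat]
      exact congrFun (congrArg DFunLike.coe h1) x
    refine ⟨Z, ?_, ?_, ?_⟩
    · intro a b
      have h1 : ∀ x : G.edgeSet → ℚ, (Z.map (algebraMap ℚ ℝ)) *ᵥ (fun e => algebraMap ℚ ℝ (x e)) =
          fun e => algebraMap ℚ ℝ ((Z *ᵥ x) e) := by
        intro x
        ext e
        simp [Matrix.mulVec, dotProduct]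
      have h2 : ∀ x : Fin n → ℚ, U' *ᵥ (fun e => algebraMap ℚ ℝ (x e)) =
          fun e => algebraMap ℚ ℝ ((aeval A h *ᵥ x) e) := by
        intro x
        ext e
        simp [hU', Matrix.mulVec, dotProduct]
      have h3 := hZ (fun i => algebraMap ℚ ℝ (a i)) (fun i => algebraMap ℚ ℝ (b i))
      rw [h2, h2, hγ', br_bc, br_bc, ← hZmap, h1] at h3
      ext e
      exact (algebraMap ℚ ℝ).injective (congrFun h3 e)
    · rw [← Matrix.charpoly_map]
      exact diag_charpoly _ z _ (hUz h)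
    · rw [← Matrix.charpoly_map]
      refine diag_charpoly _ ωb _ fun e => ?_
      rw [hZmap, hωb]
      exact hZω e

end Pool.Agent.P8H43.An

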